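import Pool.Agent.PFD.StmtsD2

/-! ALX: the multiplication lifts (copy of B1/ALG). -/

noncomputable section

namespace Pool.Agent.PFD.D2.H72

open MulOpposite Pool.Agent.PFD.D2
open Pool.Agent.PFC.B1 (BiM FS Sep RngStmt PenStmt)




section
variable {R Γ P : Type} [CommRing R] [Ring Γ] [Algebra R Γ] [AddCommGroup P] [Module R P]

private theorem mu_add_left (B : BiM R Γ P) (β : P →ₗ[R] P →ₗ[R] Γ × P) (x x' y : Γ × P) :
    B.mu β (x + x') y = B.mu β x y + B.mu β x' y := by
  unfold BiM.mu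
  ext
  · simp [add_mul]
    abel
  · simp only [Prod.fst_add, Prod.snd_add, map_add, LinearMap.add_apply, Prod.snd_add]
    abel

private theorem mu_add_right (B : BiM R Γ P) (β : P →ₗ[R] P →ₗ[R] Γ × P) (x y y' : Γ × P) :
    B.mu β x (y + y') = B.mu β x y + B.mu β x y' := by
  unfold BiM.mu
  ext
  · simp [mul_add]
    abel
  · simp only [Prod.fst_add, Prod.snd_add, map_add, LinearMap.add_apply, Prod.snd_add, op_add]
    abel

private theorem mu_smul_left (B : BiM R Γ P) (β : P →ₗ[R] P →ₗ[R] Γ × P) (r : R) (x y : Γ × P) :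
    B.mu β (r • x) y = r • B.mu β x y := by
  unfold BiM.mu
  ext
  · simp [smul_add]
  · simp only [Prod.smul_fst, Prod.smul_snd, map_smul, LinearMap.smul_apply, Prod.snd_add,
      smul_add]

private theorem mu_smul_right (B : BiM R Γ P) (β : P →ₗ[R] P →ₗ[R] Γ × P) (r : R)
    (x y : Γ × P) : B.mu β x (r • y) = r • B.mu β x y := by
  unfold BiM.mu
  ext
  · simp [smul_add]
  · simp only [Prod.smul_fst, Prod.smul_snd, map_smul, LinearMap.smul_apply, Prod.snd_add,
      smul_add, op_smul]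

private theorem mu_beta (B : BiM R Γ P) (β ν : P →ₗ[R] P →ₗ[R] Γ × P) (r : R) (x y : Γ × P) :
    B.mu (β + r • ν) x y = B.mu β x y + r • ν x.2 y.2 := by
  unfold BiM.mu
  simp only [LinearMap.add_apply, LinearMap.smul_apply]
  abel

private theorem as_beta (B : BiM R Γ P) (β ν : P →ₗ[R] P →ₗ[R] Γ × P) (r : R) (x y z : Γ × P) :
    ∃ w, B.as (β + r • ν) x y z = B.as β x y z + r • w := by
  refine ⟨B.mu β (ν x.2 y.2) z + ν (B.mu (β + r • ν) x y).2 z.2
    - (B.mu β x (ν y.2 z.2) + ν x.2 (B.mu (β + r • ν) y z).2), ?_⟩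
  unfold BiM.as
  rw [mu_beta B β ν r (B.mu (β + r • ν) x y) z, mu_beta B β ν r x (B.mu (β + r • ν) y z)]
  have h1 : B.mu β (B.mu (β + r • ν) x y) z
      = B.mu β (B.mu β x y) z + r • B.mu β (ν x.2 y.2) z := by
    rw [mu_beta B β ν r x y, mu_add_left, mu_smul_left]
  have h2 : B.mu β x (B.mu (β + r • ν) y z)
      = B.mu β x (B.mu β y z) + r • B.mu β x (ν y.2 z.2) := by
    rw [mu_beta B β ν r y z, mu_add_right, mu_smul_right]
  rw [h1, h2, smul_sub, smul_add, smul_add]
  abel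

/-- the submodule of balanced maps -/
private def balS (B : BiM R Γ P) : Submodule R (P →ₗ[R] P →ₗ[R] Γ × P) where
  carrier := {β | B.Bal β}
  zero_mem' := by
    refine ⟨fun γ p p' => ?_, fun γ p p' => ?_, fun γ p p' => ?_⟩ <;>
      simp [BiM.la, BiM.ra] <;> rfl
  add_mem' := by
    intro β β' h h'
    refine ⟨fun γ p p' => ?_, fun γ p p' => ?_, fun γ p p' => ?_⟩
    · simp only [LinearMap.add_apply, h.1, h'.1, BiM.la]
      ext
      · simp [mul_add]
      · simp
    · simp only [LinearMap.add_apply, h.2.1, h'.2.1]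
    · simp only [LinearMap.add_apply, h.2.2, h'.2.2, BiM.ra]
      ext
      · simp [add_mul]
      · simp
  smul_mem' := by
    intro r β h
    refine ⟨fun γ p p' => ?_, fun γ p p' => ?_, fun γ p p' => ?_⟩
    · simp only [LinearMap.smul_apply, h.1, BiM.la]
      ext
      · simp
      · simp
    · simp only [LinearMap.smul_apply, h.2.1]
    · simp only [LinearMap.smul_apply, h.2.2, BiM.ra]
      ext
      · simp
      · simp

end

theorem sep_of {R F M : Type} [CommRing R] [Field F] (c : Cdv R F) [AddCommGroup M] [Module R M]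
    [Module.Finite R M] [Module.Free R M] (v : M)
    (h : ∀ n, 1 ≤ n → ∃ w, v = c.π ^ n • w) : v = 0 := by
  have b := Module.Free.chooseBasis R M
  apply b.ext_elem
  intro i
  rw [map_zero, Finsupp.zero_apply]
  refine c.sep _ fun n => ?_
  rcases Nat.eq_zero_or_pos n with hn | hn
  · exact ⟨b.repr v i, by rw [hn, pow_zero, one_mul]⟩
  · obtain ⟨w, hw⟩ := h n hn
    refine ⟨b.repr w i, ?_⟩
    conv_lhs => rw [hw]
    rw [map_smul, Finsupp.smul_apply, smul_eq_mul]

theorem suc_sub (hSuc : SugStmt) (R F M : Type) [CommRing R] [IsDomain R]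
    [IsPrincipalIdealRing R] [Field F] (c : Cdv R F) [AddCommGroup M]
    [Module R M] [Module.Finite R M] [Module.Free R M]
    (S : Submodule R M) (P : ℕ → M → Prop)
    (h1 : ∀ n, ∀ x ∈ S, ∀ z ∈ S, P n x → P n (x + c.π ^ n • z))
    (h2 : ∀ n, 1 ≤ n → ∀ x ∈ S, P n x →
      ∃ z ∈ S, P (n + 1) (x + c.π ^ n • z)) :
    ∀ x ∈ S, P 1 x → ∃ z ∈ S, ∀ n, 1 ≤ n → P n (x + c.π • z) := by
  intro x hx hP
  have : IsNoetherian R M := isNoetherian_of_isNoetherianRing_of_finite _ M
  have : Module.Finite R S := Module.IsNoetherian.finite _ _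
  have : Module.Free R S := inferInstance
  obtain ⟨z, hz⟩ := hSuc R F S c (fun n y => P n y.1)
    (fun n y z hy => h1 n y.1 y.2 z.1 z.2 hy)
    (fun n y hn hy => by
      obtain ⟨z, hz, hz2⟩ := h2 n hn y.1 y.2 hy
      exact ⟨⟨z, hz⟩, hz2⟩)
    ⟨x, hx⟩ hP
  exact ⟨z.1, z.2, hz⟩

theorem alx (hSug : SugStmt) (_hPen : PenStmt) (hStg : StgStmt) : AlxStmt := by
  intro R F Γ A X X0 K P _ _ _ _ c _ _ _ _ _ _ _ _ _ _ BX D _ sep _ _ _ _ L hB
  -- the multiplicativity of qq
  have hqX : ∀ (n : ℕ) (v : Γ × P), 1 ≤ n →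
      L.qq (c.π ^ n • v) = 0 := by
    intro n v hn
    obtain ⟨m, rfl⟩ : ∃ m, n = m + 1 := ⟨n - 1, by omega⟩
    have h1 : ∀ a : A, c.π ^ (m + 1) • a = 0 := by
      intro a
      rw [Algebra.smul_def, map_pow, D.hA, zero_pow (by omega), zero_mul]
    unfold PLX.qq
    rw [Prod.smul_fst, Prod.smul_snd, map_smul, map_smul, h1, h1, add_zero]
  have hqadd : ∀ v w : Γ × P, L.qq (v + w) = L.qq v + L.qq w := by
    intro v w
    unfold PLX.qq
    rw [Prod.fst_add, Prod.snd_add, map_add, map_add]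
    abel
  have hqsub : ∀ v w : Γ × P, L.qq (v - w) = L.qq v - L.qq w := by
    intro v w
    unfold PLX.qq
    rw [Prod.fst_sub, Prod.snd_sub, map_sub, map_sub]
    abel
  have hqmul : ∀ β : P →ₗ[R] P →ₗ[R] Γ × P,
      (∀ p p', L.qq (β p p') = L.q p * L.q p') →
      ∀ x y, L.qq (L.toBiM.mu β x y) = L.qq x * L.qq y := by
    intro β hβ x y
    unfold BiM.mu
    rw [hqadd, hβ]
    unfold PLX.qq
    simp only
    rw [map_mul, map_add, L.q1, L.q2]
    noncomm_ring
  have hqker : ∀ v : Γ × P, L.qq v = 0 →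
      ∃ w, v = c.π ^ 1 • w := by
    rintro ⟨γ, p⟩ hv
    unfold PLX.qq at hv
    simp only at hv
    have h1 : D.j γ = 0 := by
      have h2 := congrArg D.e hv
      rw [map_add, D.e2, L.q3, add_zero, map_zero] at h2
      exact h2
    have h2 : L.q p = 0 := by
      rw [h1, zero_add] at hv
      exact hv
    obtain ⟨γ', hγ'⟩ := D.hj γ h1
    obtain ⟨y, hy⟩ := (L.q5 p).1 h2
    refine ⟨(γ', y), ?_⟩
    rw [pow_one, hγ', hy]
    rfl
  -- the start
  obtain ⟨β1, hB1, hq1⟩ := hB
    ((LinearMap.mul (R) A).compl₁₂ L.q L.q)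
    (by
      intro γ p p'
      simp only [LinearMap.compl₁₂_apply, LinearMap.mul_apply', L.q1]
      rw [mul_assoc])
    (by
      intro γ p p'
      simp only [LinearMap.compl₁₂_apply, LinearMap.mul_apply', L.q1, L.q2]
      rw [mul_assoc])
    (by
      intro γ p p'
      simp only [LinearMap.compl₁₂_apply, LinearMap.mul_apply', L.q2]
      rw [mul_assoc])
  have hq1' : ∀ p p', L.qq (β1 p p') = L.q p * L.q p' := fun p p' => by
    rw [hq1]
    rfl
  -- successive approximation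
  obtain ⟨z, hzS, hz⟩ := suc_sub hSug R F (P →ₗ[R] P →ₗ[R] Γ × P) c
    (balS L.toBiM)
    (fun n β => n = 0 ∨ ((∀ p p', L.qq (β p p') = L.q p * L.q p') ∧
      ∀ x y w, ∃ u, L.toBiM.as β x y w = c.π ^ n • u))
    (by
      rintro n β hβ ν hν (h | ⟨h1, h2⟩)
      · exact Or.inl h
      · rcases Nat.eq_zero_or_pos n with hn | hn
        · exact Or.inl hn
        · right
          refine ⟨fun p p' => ?_, fun x y w => ?_⟩
          · rw [LinearMap.add_apply, LinearMap.add_apply, hqadd, LinearMap.smul_apply,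
              LinearMap.smul_apply, hqX n _ hn, add_zero, h1]
          · obtain ⟨u, hu⟩ := h2 x y w
            obtain ⟨u', hu'⟩ := as_beta L.toBiM β ν (c.π ^ n) x y w
            refine ⟨u + u', ?_⟩
            rw [hu', hu, smul_add])
    (by
      rintro n hn β hβ (h | ⟨h1, h2⟩)
      · omega
      · obtain ⟨ν, hν, hν2⟩ := hStg R F Γ A X X0 K P c BX D sep L hB β n hn hβ h1 h2
        refine ⟨ν, hν, Or.inr ⟨fun p p' => ?_, hν2⟩⟩
        rw [LinearMap.add_apply, LinearMap.add_apply, hqadd, LinearMap.smul_apply,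
              LinearMap.smul_apply, hqX n _ hn, add_zero, h1])
    β1 hB1
    (by
      right
      refine ⟨hq1', fun x y w => hqker _ ?_⟩
      unfold BiM.as
      rw [hqsub, hqmul β1 hq1', hqmul β1 hq1', hqmul β1 hq1', hqmul β1 hq1', mul_assoc, sub_self])
  refine ⟨β1 + c.π • z,
    (balS L.toBiM).add_mem hB1 ((balS L.toBiM).smul_mem _ hzS), fun x y w => ?_, ?_⟩
  · refine sep_of c _ ?_
    intro n hn
    rcases hz n hn with h | h
    · omega
    · exact h.2 x y w
  · rcases hz 1 le_rfl with h | h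
    · omega
    · exact h.1

end Pool.Agent.PFD.D2.H72
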