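import Pool.Agent.PFD.StmtsD2b

/-! HGR: the bimodule `X` is Higman projective up to the factor `|W|`. -/

set_option autoImplicit false

open scoped BigOperators

noncomputable section

namespace Pool.Agent.PFD.D2b.H72

open MulOpposite
open Pool.Agent.PFC.B1 (BiM FS)
open Pool.Agent.PFD.D2
open Pool.Agent.PFD.D2b

/-- both dual families at once -/
theorem two_sided {R Γ J N : Type} [CommRing R] [Ring Γ] [Algebra R Γ] [Fintype J]
    [AddCommGroup N] [Module R N] (c : FS R Γ J) (B : BiM R Γ N) (p q : Γ) (e : N) :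
    ∑ s, ∑ t, (c.lam (c.b' s * p) * c.lam (q * c.b t)) •
      B.lm (c.b s) (B.rm (op (c.b' t)) e) = B.lm p (B.rm (op q) e) := by
  have h1 : B.lm p (B.rm (op q) e) =
      ∑ s, c.lam (c.b' s * p) • B.lm (c.b s) (B.rm (op q) e) := by
    conv_lhs => rw [← c.h1 p]
    rw [map_sum, LinearMap.sum_apply]
    refine Finset.sum_congr rfl fun s _ => ?_
    rw [map_smul, LinearMap.smul_apply]
  have h2 : B.rm (op q) e = ∑ t, c.lam (q * c.b t) • B.rm (op (c.b' t)) e := by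
    conv_lhs => rw [← c.h2 q]
    have h3 : op (∑ t, c.lam (q * c.b t) • c.b' t) =
        ∑ t, c.lam (q * c.b t) • op (c.b' t) := by
      have h4 := map_sum (MulOpposite.opLinearEquiv R : Γ ≃ₗ[R] Γᵐᵒᵖ)
        (fun t => c.lam (q * c.b t) • c.b' t) Finset.univ
      exact h4
    rw [h3, map_sum, LinearMap.sum_apply]
    refine Finset.sum_congr rfl fun t _ => ?_
    rw [map_smul, LinearMap.smul_apply]
  rw [h1, h2]
  refine Finset.sum_congr rfl fun s _ => ?_
  rw [map_sum, Finset.smul_sum]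
  refine Finset.sum_congr rfl fun t _ => ?_
  rw [map_smul, smul_smul]

section

variable {R Γ W I Ω X : Type} [CommRing R] [Ring Γ] [Algebra R Γ] [CommGroup W] [Fintype W]
  [Fintype I] [Fintype Ω] [MulAction W Ω] [AddCommGroup X] [Module R X]

/-- the map `Ψ γ h = ∑ lam (γ om v⁻¹) lam (om v h ω) • ε (v ω)` -/
def Psi (D : WFS R Γ W I) (ε : Ω → X) : Γ →ₗ[R] (Ω → Γ) →ₗ[R] X :=
  LinearMap.mk₂ R (fun γ h => ∑ ω, ∑ v, (D.lam (γ * D.om v⁻¹) * D.lam (D.om v * h ω)) • ε (v • ω))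
    (fun γ γ' h => by
      simp only [add_mul, map_add, add_smul, Finset.sum_add_distrib])
    (fun r γ h => by
      simp only [smul_mul_assoc, map_smul, smul_eq_mul, mul_assoc, mul_smul, Finset.smul_sum])
    (fun γ h h' => by
      simp only [Pi.add_apply, mul_add, map_add, add_smul, Finset.sum_add_distrib])
    (fun r γ h => by
      simp only [Pi.smul_apply, mul_smul_comm, map_smul, smul_eq_mul, Finset.smul_sum, mul_smul,
        smul_comm r])

theorem Psi_apply (D : WFS R Γ W I) (ε : Ω → X) (γ : Γ) (h : Ω → Γ) :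
    Psi D ε γ h = ∑ ω, ∑ v, (D.lam (γ * D.om v⁻¹) * D.lam (D.om v * h ω)) • ε (v • ω) := rfl

theorem Psi_eq (D : WFS R Γ W I) (ε : Ω → X) (γ : Γ) (w : W) (h : Ω → Γ) :
    Psi D ε γ (fun ω => D.om w * h (w⁻¹ • ω)) = Psi D ε (γ * D.om w) h := by
  rw [Psi_apply, Psi_apply, ← Equiv.sum_comp (MulAction.toPerm w)]
  refine Finset.sum_congr rfl fun ω _ => ?_
  rw [← Equiv.sum_comp (Equiv.mulRight w⁻¹)]
  refine Finset.sum_congr rfl fun v _ => ?_
  have e1 : (MulAction.toPerm w : Equiv.Perm Ω) ω = w • ω := rfl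
  have e2 : (Equiv.mulRight w⁻¹) v = v * w⁻¹ := rfl
  have e3 : D.om (v * w⁻¹) * (D.om w * h ω) = D.om v * h ω := by
    rw [← mul_assoc, ← map_mul, inv_mul_cancel_right]
  have e4 : γ * D.om (v * w⁻¹)⁻¹ = γ * D.om w * D.om v⁻¹ := by
    rw [mul_inv_rev, inv_inv, map_mul, mul_assoc]
  rw [e1, e2, inv_smul_smul, smul_smul, inv_mul_cancel_right, e3, e4]

end

theorem hgr (hing : IngStmt) : HgrStmt := by
  intro R Γ W I Ω _ _ _ _ _ _ _ _ D BX hX
  obtain ⟨ε, hε, hgen, -⟩ := hing R Γ W I Ω D BX hX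
  let a : (I × Ω → Γ) →ₗ[R] (I × Ω → Γ) :=
    ∑ i, (Psi D ε (D.cf i)) ∘ₗ (LinearMap.pi fun ω => LinearMap.proj (i, ω))
  have ha : ∀ f, a f = ∑ i, Psi D ε (D.cf i) (fun ω => f (i, ω)) := by
    intro f
    show (∑ i, (Psi D ε (D.cf i)) ∘ₗ (LinearMap.pi fun ω => LinearMap.proj (i, ω))) f = _
    rw [LinearMap.sum_apply]
    rfl
  have hag : ∀ γ f, a (BX.lm γ f) = ∑ i, Psi D ε (γ * D.cf i) (fun ω => f (i, ω)) := by
    intro γ f
    rw [ha]
    have h1 : ∀ j, Psi D ε (D.cf j) (fun ω => BX.lm γ f (j, ω)) =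
        ∑ i, ∑ w, D.lam (D.om w⁻¹ * D.cf' j * (γ * D.cf i)) •
          Psi D ε (D.cf j * D.om w) (fun ω => f (i, ω)) := by
      intro j
      have h2 : (fun ω => BX.lm γ f (j, ω)) = ∑ i, ∑ w,
          D.lam (D.om w⁻¹ * D.cf' j * (γ * D.cf i)) •
            (fun ω => D.om w * (fun ω' => f (i, ω')) (w⁻¹ • ω)) := by
        funext ω
        rw [hX.1, Finset.sum_apply]
        refine Finset.sum_congr rfl fun i _ => ?_
        rw [Finset.sum_apply]
        refine Finset.sum_congr rfl fun w _ => ?_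
        rw [Pi.smul_apply, mul_assoc (D.om w⁻¹ * D.cf' j) γ (D.cf i)]
      rw [h2, map_sum]
      refine Finset.sum_congr rfl fun i _ => ?_
      rw [map_sum]
      refine Finset.sum_congr rfl fun w _ => ?_
      rw [map_smul]
      exact congrArg _ (Psi_eq D ε (D.cf j) w (fun ω' => f (i, ω')))
    rw [Finset.sum_congr rfl fun j _ => h1 j, Finset.sum_comm]
    refine Finset.sum_congr rfl fun i _ => ?_
    conv_rhs => rw [← D.h1 (γ * D.cf i)]
    rw [map_sum, LinearMap.sum_apply]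
    refine Finset.sum_congr rfl fun j _ => ?_
    rw [map_sum, LinearMap.sum_apply]
    refine Finset.sum_congr rfl fun w _ => ?_
    rw [map_smul, LinearMap.smul_apply]
  have hrm : ∀ γ f, BX.rm (op γ) f = fun x => f x * γ := by
    intro γ f
    funext x
    exact hX.2 γ f x
  refine ⟨a, fun x => ?_⟩
  have hstep : ∀ s t : I × W, BX.lm (D.fs.b s) (BX.rm (op (D.fs.b' t)) (a (BX.lm (D.fs.b' s)
      (BX.rm (op (D.fs.b t)) x)))) = ∑ i, ∑ ω, ∑ v,
      (D.fs.lam (D.fs.b' s * (D.cf i * D.om v⁻¹)) * D.fs.lam ((D.om v * x (i, ω)) * D.fs.b t)) •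
        BX.lm (D.fs.b s) (BX.rm (op (D.fs.b' t)) (ε (v • ω))) := by
    intro s t
    rw [hag, map_sum, map_sum]
    refine Finset.sum_congr rfl fun i _ => ?_
    rw [Psi_apply, map_sum, map_sum]
    refine Finset.sum_congr rfl fun ω _ => ?_
    rw [map_sum, map_sum]
    refine Finset.sum_congr rfl fun v _ => ?_
    rw [map_smul, map_smul, hrm, mul_assoc, mul_assoc (D.om v)]
    rfl
  have hT : ∑ s, ∑ t, BX.lm (D.fs.b s) (BX.rm (op (D.fs.b' t)) (a (BX.lm (D.fs.b' s)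
      (BX.rm (op (D.fs.b t)) x)))) = ∑ i, ∑ ω, ∑ v, BX.lm (D.cf i * D.om v⁻¹)
        (BX.rm (op (D.om v * x (i, ω))) (ε (v • ω))) := by
    calc _ = ∑ s, ∑ t, ∑ i, ∑ ω, ∑ v,
          (D.fs.lam (D.fs.b' s * (D.cf i * D.om v⁻¹)) *
            D.fs.lam ((D.om v * x (i, ω)) * D.fs.b t)) •
            BX.lm (D.fs.b s) (BX.rm (op (D.fs.b' t)) (ε (v • ω))) :=
          Finset.sum_congr rfl fun s _ => Finset.sum_congr rfl fun t _ => hstep s t
      _ = ∑ s, ∑ t, ∑ q : I × Ω × W,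
          (D.fs.lam (D.fs.b' s * (D.cf q.1 * D.om q.2.2⁻¹)) *
            D.fs.lam ((D.om q.2.2 * x (q.1, q.2.1)) * D.fs.b t)) •
            BX.lm (D.fs.b s) (BX.rm (op (D.fs.b' t)) (ε (q.2.2 • q.2.1))) := by
          refine Finset.sum_congr rfl fun s _ => Finset.sum_congr rfl fun t _ => ?_
          rw [Fintype.sum_prod_type]
          refine Finset.sum_congr rfl fun i _ => ?_
          rw [Fintype.sum_prod_type]
      _ = ∑ s, ∑ q : I × Ω × W, ∑ t,
          (D.fs.lam (D.fs.b' s * (D.cf q.1 * D.om q.2.2⁻¹)) *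
            D.fs.lam ((D.om q.2.2 * x (q.1, q.2.1)) * D.fs.b t)) •
            BX.lm (D.fs.b s) (BX.rm (op (D.fs.b' t)) (ε (q.2.2 • q.2.1))) :=
          Finset.sum_congr rfl fun s _ => Finset.sum_comm
      _ = ∑ q : I × Ω × W, ∑ s, ∑ t,
          (D.fs.lam (D.fs.b' s * (D.cf q.1 * D.om q.2.2⁻¹)) *
            D.fs.lam ((D.om q.2.2 * x (q.1, q.2.1)) * D.fs.b t)) •
            BX.lm (D.fs.b s) (BX.rm (op (D.fs.b' t)) (ε (q.2.2 • q.2.1))) :=
          Finset.sum_comm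
      _ = ∑ q : I × Ω × W, BX.lm (D.cf q.1 * D.om q.2.2⁻¹)
          (BX.rm (op (D.om q.2.2 * x (q.1, q.2.1))) (ε (q.2.2 • q.2.1))) :=
          Finset.sum_congr rfl fun q _ => two_sided D.fs BX _ _ _
      _ = _ := by
          rw [Fintype.sum_prod_type]
          refine Finset.sum_congr rfl fun i _ => ?_
          rw [Fintype.sum_prod_type]
  rw [hT]
  have hu : ∀ i ω v, BX.lm (D.cf i * D.om v⁻¹) (BX.rm (op (D.om v * x (i, ω))) (ε (v • ω))) =
      BX.lm (D.cf i) (BX.rm (op (x (i, ω))) (ε ω)) := by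
    intro i ω v
    have h1 : ε ω = BX.lm (D.om v⁻¹) (BX.rm (op (D.om v)) (ε (v • ω))) := by
      have h2 := hε v⁻¹ (v • ω)
      rw [inv_smul_smul, inv_inv] at h2
      exact h2
    conv_rhs => rw [h1]
    rw [map_mul, Module.End.mul_apply, op_mul, map_mul, Module.End.mul_apply,
      ← BX.comm (D.om v⁻¹)]
  calc ∑ i, ∑ ω, ∑ v, BX.lm (D.cf i * D.om v⁻¹)
        (BX.rm (op (D.om v * x (i, ω))) (ε (v • ω)))
      = ∑ i, ∑ ω, ∑ _v : W, BX.lm (D.cf i) (BX.rm (op (x (i, ω))) (ε ω)) :=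
        Finset.sum_congr rfl fun i _ => Finset.sum_congr rfl fun ω _ =>
          Finset.sum_congr rfl fun v _ => hu i ω v
    _ = (Fintype.card W : R) • ∑ i, ∑ ω, BX.lm (D.cf i) (BX.rm (op (x (i, ω))) (ε ω)) := by
        rw [Finset.smul_sum]
        refine Finset.sum_congr rfl fun i _ => ?_
        rw [Finset.smul_sum]
        refine Finset.sum_congr rfl fun ω _ => ?_
        rw [Finset.sum_const, Finset.card_univ, Nat.cast_smul_eq_nsmul]
    _ = (Fintype.card W : R) • x := by rw [hgen x]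

end Pool.Agent.PFD.D2b.H72
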